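import Mathlib
import Pool.Graph.R_seed8.Y262.EG.Def

/-!
# LF-2 (helper640): the set of the points near which a solution is large has small area
-/

set_option autoImplicit false

open Set Filter Topology MeasureTheory
open scoped ContDiff Real ENNReal

noncomputable section

namespace Pool.Agent.H640.LF

open Pool.Agent.Y262.EG

/-- verbatim copy of `StSup` -/
def StSup' : Prop :=
  ∀ V : ℝ, 0 ≤ V → ∃ C : ℝ, 0 < C ∧ ∀ (v : ℂ → ℝ) (z : ℂ) (r : ℝ), 0 < r →
    ContDiffOn ℝ ∞ v (Metric.ball z (2 * r)) →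
    (∀ w ∈ Metric.ball z (2 * r), |px (px v) w + py (py v) w| ≤ V / r ^ 2 * |v w|) →
    (v z) ^ 2 ≤ C / r ^ 2 * ∫ w in Metric.ball z r, (v w) ^ 2

/-- verbatim copy of `StBad` -/
def StBad' : Prop :=
  ∀ (U K : Set ℂ) (E R : ℝ), IsOpen U → IsCompact K → K ⊆ U → 0 < R →
    ∃ (K' : Set ℂ) (C l0 : ℝ), IsCompact K' ∧ K' ⊆ U ∧ 0 < l0 ∧ 0 < C ∧
    ∀ (v Φ : ℂ → ℝ) (lam δ : ℝ), ContDiffOn ℝ ∞ v U → (∀ z ∈ U, |Φ z| ≤ E) →
      (∀ z ∈ U, -(Real.exp (-2 * Φ z) * (px (px v) z + py (py v) z)) = lam * v z) →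
      l0 ≤ lam → 0 < δ →
      (∀ z ∈ K, ∀ ζ : ℂ, ‖ζ‖ ≤ R / √lam → z + ζ ∈ U) ∧
      volume {z | z ∈ K ∧ ∃ ζ : ℂ, ‖ζ‖ ≤ R / √lam ∧ δ ≤ |v (z + ζ)|} ≤
        ENNReal.ofReal (C / δ ^ 2 * ∫ w in K', (v w) ^ 2)

/-- Tonelli: the mean over the centers of the integral over balls -/
theorem tonelli {f : ℂ → ℝ≥0∞} (hf : Measurable f) (s : ℝ) :
    Measurable (fun z : ℂ => ∫⁻ w in Metric.ball z s, f w) ∧
    ∫⁻ z : ℂ, ∫⁻ w in Metric.ball z s, f w = ENNReal.ofReal s ^ 2 * NNReal.pi * ∫⁻ w, f w := by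
  set F : ℂ × ℂ → ℝ≥0∞ := {p : ℂ × ℂ | dist p.2 p.1 < s}.indicator (fun p => f p.2) with hF
  have hmeas : Measurable F := by
    refine (hf.comp measurable_snd).indicator ?_
    exact (isOpen_lt (continuous_snd.dist continuous_fst) continuous_const).measurableSet
  have e1 : ∀ z : ℂ, ∫⁻ w in Metric.ball z s, f w = ∫⁻ w, F (z, w) := by
    intro z
    rw [← lintegral_indicator Metric.isOpen_ball.measurableSet]
    refine lintegral_congr fun w => ?_
    rw [hF]
    by_cases h : dist w z < s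
    · rw [indicator_of_mem (show w ∈ Metric.ball z s from h),
        indicator_of_mem (show (z, w) ∈ {p : ℂ × ℂ | dist p.2 p.1 < s} from h)]
    · rw [indicator_of_notMem (show w ∉ Metric.ball z s from h),
        indicator_of_notMem (show (z, w) ∉ {p : ℂ × ℂ | dist p.2 p.1 < s} from h)]
  simp only [e1]
  refine ⟨hmeas.lintegral_prod_right', ?_⟩
  rw [lintegral_lintegral_swap (f := fun z w => F (z, w)) hmeas.aemeasurable]
  have e2 : ∀ w : ℂ, ∫⁻ z, F (z, w) = ENNReal.ofReal s ^ 2 * NNReal.pi * f w := by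
    intro w
    have h1 : ∀ z : ℂ, F (z, w) = (Metric.ball w s).indicator (fun _ => f w) z := by
      intro z
      rw [hF]
      by_cases h : dist w z < s
      · rw [indicator_of_mem (show (z, w) ∈ {p : ℂ × ℂ | dist p.2 p.1 < s} from h),
          indicator_of_mem (show z ∈ Metric.ball w s by rw [Metric.mem_ball, dist_comm]; exact h)]
      · rw [indicator_of_notMem (show (z, w) ∉ {p : ℂ × ℂ | dist p.2 p.1 < s} from h),
          indicator_of_notMem (show z ∉ Metric.ball w s by
            rw [Metric.mem_ball, dist_comm]; exact h)]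
    rw [lintegral_congr h1, lintegral_indicator Metric.isOpen_ball.measurableSet,
      setLIntegral_const, Complex.volume_ball, mul_comm]
  rw [lintegral_congr e2, lintegral_const_mul _ hf]

theorem stBad' (h : StSup') : StBad' := by
  intro U K E R hU hK hKU hR
  obtain ⟨C1, hC1, hsup⟩ := h (R ^ 2 * Real.exp (2 * E)) (by positivity)
  obtain ⟨ρ, hρ, hρU⟩ := hK.exists_cthickening_subset_open hU hKU
  refine ⟨Metric.cthickening ρ K, 4 * π * C1, (8 * R / ρ) ^ 2 + 1, hK.cthickening, hρU,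
    by positivity, by positivity, ?_⟩
  intro v Φ lam δ hv hΦ heq hlam hδ
  have hlam0 : 0 < lam := lt_of_lt_of_le (by positivity) hlam
  have hsq : 0 < √lam := Real.sqrt_pos.2 hlam0
  obtain ⟨r, hr⟩ : ∃ r : ℝ, r = R / √lam := ⟨_, rfl⟩
  have hr0 : 0 < r := by rw [hr]; positivity
  have hr8 : 8 * r ≤ ρ := by
    have h1 : 8 * R / ρ ≤ √lam := by
      apply Real.le_sqrt_of_sq_le
      linarith
    rw [div_le_iff₀ hρ] at h1
    rw [hr, ← mul_div_assoc, div_le_iff₀ hsq]
    linarith
  have hr2 : R ^ 2 * Real.exp (2 * E) / r ^ 2 = lam * Real.exp (2 * E) := by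
    rw [hr, div_pow, Real.sq_sqrt hlam0.le]
    field_simp
  rw [← hr]
  have hin : ∀ z ∈ K, ∀ w : ℂ, dist w z ≤ ρ → w ∈ Metric.cthickening ρ K := fun z hz w hw =>
    Metric.mem_cthickening_of_dist_le w z ρ K hz hw
  refine ⟨fun z hz ζ hζ => hρU (hin z hz _ ?_), ?_⟩
  · rw [dist_eq_norm, add_sub_cancel_left]
    linarith
  -- the main estimate
  have hK'c : IsCompact (Metric.cthickening ρ K) := hK.cthickening
  have hK'm : MeasurableSet (Metric.cthickening ρ K) := hK'c.isClosed.measurableSet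
  have hvc : ContinuousOn (fun w => v w ^ 2) (Metric.cthickening ρ K) :=
    (hv.continuousOn.mono hρU).pow 2
  have hint : IntegrableOn (fun w => v w ^ 2) (Metric.cthickening ρ K) :=
    hvc.integrableOn_compact hK'c
  set f : ℂ → ℝ≥0∞ := (Metric.cthickening ρ K).indicator fun w => ENNReal.ofReal (v w ^ 2)
    with hf
  have hfm : Measurable f := by
    classical
    have h1 : ContinuousOn (fun w => ENNReal.ofReal (v w ^ 2)) (Metric.cthickening ρ K) :=
      ENNReal.continuous_ofReal.comp_continuousOn hvc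
    have h2 := h1.measurable_piecewise (g := fun _ => 0) continuousOn_const hK'm
    have h3 : (Metric.cthickening ρ K).piecewise (fun w => ENNReal.ofReal (v w ^ 2))
        (fun _ => 0) = f := by
      rw [hf]
      exact piecewise_eq_indicator
    rwa [h3] at h2
  have hfi : ∫⁻ w, f w = ENNReal.ofReal (∫ w in Metric.cthickening ρ K, v w ^ 2) := by
    rw [hf, lintegral_indicator hK'm,
      ofReal_integral_eq_lintegral_ofReal hint (Eventually.of_forall fun w => sq_nonneg _)]
  obtain ⟨hgm, hgi⟩ := tonelli hfm (2 * r)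
  have hsub : {z | z ∈ K ∧ ∃ ζ : ℂ, ‖ζ‖ ≤ r ∧ δ ≤ |v (z + ζ)|} ⊆
      {z | ENNReal.ofReal (δ ^ 2) ≤
        ENNReal.ofReal (C1 / r ^ 2) * ∫⁻ w in Metric.ball z (2 * r), f w} := by
    rintro z ⟨hz, ζ, hζ, hδζ⟩
    have hball2 : ∀ w ∈ Metric.ball (z + ζ) (2 * r), w ∈ Metric.cthickening ρ K := by
      intro w hw
      apply hin z hz
      rw [Metric.mem_ball] at hw
      have h1 := dist_triangle w (z + ζ) z
      have h2 : dist (z + ζ) z = ‖ζ‖ := by rw [dist_eq_norm, add_sub_cancel_left]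
      rw [h2] at h1
      linarith
    have h3 := hsup v (z + ζ) r hr0 (hv.mono fun w hw => hρU (hball2 w hw)) (by
      intro w hw
      have hwU := hρU (hball2 w hw)
      have h4 := heq w hwU
      have h5 : px (px v) w + py (py v) w = -(lam * Real.exp (2 * Φ w) * v w) := by
        have h6 : Real.exp (2 * Φ w) * Real.exp (-2 * Φ w) = 1 := by
          rw [← Real.exp_add]
          have : 2 * Φ w + -2 * Φ w = 0 := by ring
          rw [this, Real.exp_zero]
        calc px (px v) w + py (py v) w =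
            (Real.exp (2 * Φ w) * Real.exp (-2 * Φ w)) * (px (px v) w + py (py v) w) := by
              rw [h6, one_mul]
          _ = -(Real.exp (2 * Φ w) *
              -(Real.exp (-2 * Φ w) * (px (px v) w + py (py v) w))) := by ring
          _ = _ := by rw [h4]; ring
      rw [h5, hr2, abs_neg, abs_mul, abs_mul, abs_of_pos hlam0, abs_of_pos (Real.exp_pos _)]
      have h7 : Real.exp (2 * Φ w) ≤ Real.exp (2 * E) := by
        apply Real.exp_le_exp.2
        have := (abs_le.1 (hΦ w hwU)).2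
        linarith
      gcongr)
    have h8 : δ ^ 2 ≤ C1 / r ^ 2 * ∫ w in Metric.ball (z + ζ) r, v w ^ 2 := by
      refine le_trans ?_ h3
      rw [← sq_abs (v (z + ζ))]
      exact pow_le_pow_left₀ hδ.le hδζ 2
    have hball1 : Metric.ball (z + ζ) r ⊆ Metric.cthickening ρ K := fun w hw =>
      hball2 w (Metric.ball_subset_ball (by linarith) hw)
    show ENNReal.ofReal (δ ^ 2) ≤ _
    calc ENNReal.ofReal (δ ^ 2)
        ≤ ENNReal.ofReal (C1 / r ^ 2 * ∫ w in Metric.ball (z + ζ) r, v w ^ 2) :=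
          ENNReal.ofReal_le_ofReal h8
      _ = ENNReal.ofReal (C1 / r ^ 2) * ENNReal.ofReal (∫ w in Metric.ball (z + ζ) r, v w ^ 2) :=
          ENNReal.ofReal_mul (by positivity)
      _ = ENNReal.ofReal (C1 / r ^ 2) * ∫⁻ w in Metric.ball (z + ζ) r, f w := by
          congr 1
          rw [ofReal_integral_eq_lintegral_ofReal (hint.mono_set hball1)
            (Eventually.of_forall fun w => sq_nonneg _)]
          refine setLIntegral_congr_fun Metric.isOpen_ball.measurableSet fun w hw => ?_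
          rw [hf, indicator_of_mem (hball1 hw)]
      _ ≤ _ := by
          refine mul_le_mul_right ?_ _
          refine lintegral_mono_set fun w hw => ?_
          rw [Metric.mem_ball] at hw ⊢
          have h1 := dist_triangle w (z + ζ) z
          have h2 : dist (z + ζ) z = ‖ζ‖ := by rw [dist_eq_norm, add_sub_cancel_left]
          rw [h2] at h1
          linarith
  have hmk := mul_meas_ge_le_lintegral (μ := (volume : Measure ℂ))
    (hgm.const_mul (ENNReal.ofReal (C1 / r ^ 2))) (ENNReal.ofReal (δ ^ 2))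
  rw [lintegral_const_mul _ hgm, hgi, hfi] at hmk
  have hconst : ENNReal.ofReal (C1 / r ^ 2) * (ENNReal.ofReal (2 * r) ^ 2 * NNReal.pi *
      ENNReal.ofReal (∫ w in Metric.cthickening ρ K, v w ^ 2)) =
      ENNReal.ofReal (4 * π * C1 * ∫ w in Metric.cthickening ρ K, v w ^ 2) := by
    have hpi : ((NNReal.pi : NNReal) : ℝ≥0∞) = ENNReal.ofReal π := by
      rw [← NNReal.coe_real_pi, ENNReal.ofReal_coe_nnreal]
    rw [hpi, ← ENNReal.ofReal_pow (by positivity), ← ENNReal.ofReal_mul (by positivity),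
      ← ENNReal.ofReal_mul (by positivity), ← ENNReal.ofReal_mul (by positivity)]
    congr 1
    field_simp
    ring
  rw [hconst] at hmk
  have hδ2 : (0 : ℝ) < δ ^ 2 := by positivity
  have hfinal : ENNReal.ofReal (4 * π * C1 / δ ^ 2 * ∫ w in Metric.cthickening ρ K, v w ^ 2) =
      ENNReal.ofReal (4 * π * C1 * ∫ w in Metric.cthickening ρ K, v w ^ 2) /
        ENNReal.ofReal (δ ^ 2) := by
    rw [← ENNReal.ofReal_div_of_pos hδ2]
    congr 1
    ring
  rw [hfinal, ENNReal.le_div_iff_mul_le (Or.inl (ENNReal.ofReal_pos.2 hδ2).ne')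
    (Or.inl ENNReal.ofReal_ne_top), mul_comm]
  refine le_trans (mul_le_mul_right (measure_mono hsub) _) hmk

end Pool.Agent.H640.LF
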